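import Pool.Agent.H88.RFP.NoChar
import Pool.Agent.H88.RFP.Exist

/-!
# Infinite reduced free products need not absorb `C([0,1])` or `𝒵`

If `C k = ℂ q k ⊕ D k` and the traces of the complementary summands satisfy
`∑_{k < n} (1 - σ k (q k)) < 1` for all `n`, then `A = *_r (C k, σ k)` has a character, while
`C([0,1]) *_r A` has none, and neither has any unital C*-algebra containing a simple C*-algebra
`≠ ℂ` unitally, such as `𝒵 *_r A`.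
-/

set_option autoImplicit false

open scoped ComplexOrder InnerProductSpace
open Finset

namespace Pool.Agent.Results.MP_88a42c_an.NoAbsorption

open Pool.H88.RFP

/-- `C([0,1]) *_r A` has no character unless `A = ℂ`. -/
theorem no_character {A B : Type} [CStarAlgebra A] [CStarAlgebra B] {α : A →ₗ[ℂ] ℂ}
    (hα : IsFTState α) {β : B →ₗ[ℂ] ℂ} {κ₁ : C(unitInterval, ℂ) →⋆ₐ[ℂ] B} {κ₂ : A →⋆ₐ[ℂ] B}
    (h : IsReducedFreeProduct₂ lebesgue α β κ₁ κ₂)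
    (hA : ∃ a : A, ∀ z : ℂ, a ≠ algebraMap ℂ A z) : IsEmpty (B →ₐ[ℂ] ℂ) := by
  refine ⟨fun X => ?_⟩
  obtain ⟨a, ha⟩ := hA
  let P : Bool → StarSubalgebra ℂ B := fun b => bif b then κ₁.range else κ₂.range
  have hP : (fun b : Bool => (P b : Set B))
      = fun b : Bool => bif b then Set.range κ₁ else Set.range κ₂ := by
    funext b
    cases b
    · exact AlgHom.coe_range κ₂.toAlgHom
    · exact AlgHom.coe_range κ₁.toAlgHom
  have hd : Dense (Algebra.adjoin ℂ (⋃ b, (P b : Set B)) : Set B) := by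
    have h1 : (⋃ b, (P b : Set B)) = Set.range κ₁ ∪ Set.range κ₂ := by
      have h2 : (⋃ b, (P b : Set B))
          = ⋃ b : Bool, (bif b then Set.range κ₁ else Set.range κ₂ : Set B) := by
        exact congrArg (fun F : Bool → Set B => ⋃ b, F b) hP
      rw [h2]
      ext x
      simp only [Set.mem_iUnion, Bool.exists_bool, Set.mem_union]
      rw [or_comm]
      rfl
    rw [h1]
    exact h.dense
  have hf : IsFree β fun b : Bool => (P b : Set B) := by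
    rw [hP]
    exact h.free
  have key : ∀ a : A, α a = 0 → X (κ₂ a) = 0 := by
    intro a ha0
    refine character_eq_zero h.state hf hd (i₀ := false) (i₁ := true) (by simp)
      (fun j => κ₁ (expo j)) (fun j => ⟨expo j, rfl⟩) (fun j => ?_) (fun j => ?_)
      (fun i j hij => ?_) (x := κ₂ a) ⟨a, rfl⟩ ?_ X
    · rw [← map_star, ← map_mul, star_expo_mul, map_one]
    · rw [← map_star, ← map_mul, mul_comm, star_expo_mul, map_one]
    · rw [← map_star, ← map_mul, h.comp₁, lebesgue_expo hij]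
    · rw [h.comp₂, ha0]
  have hX : ∀ a, X (κ₂ a) = α a := by
    intro a
    have h1 := key (a - α a • 1) (by rw [map_sub, map_smul, hα.map_one]; simp)
    rw [map_sub, map_smul, map_one, map_sub, map_smul, map_one, sub_eq_zero] at h1
    rw [h1]
    simp
  have h2 : α (star (a - α a • 1) * (a - α a • 1)) = 0 := by
    rw [← hX, map_mul, map_mul, hX (a - α a • 1), map_sub α, map_smul, hα.map_one]
    simp
  apply ha (α a)
  rw [Algebra.algebraMap_eq_smul_one]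
  exact sub_eq_zero.1 (hα.faithful _ h2)

/-- The assertion `A ≅ C([0,1]) *_r A` of Q1, for all sequences. -/
def AbsorbsInterval : Prop :=
  ∀ (C : ℕ → Type) [∀ k, CStarAlgebra (C k)] [∀ k, TopologicalSpace.SeparableSpace (C k)]
    (σ : ∀ k, C k →ₗ[ℂ] ℂ), (∀ k, IsFTState (σ k)) →
    (∀ k, ∃ c : C k, ∀ z : ℂ, c ≠ algebraMap ℂ (C k) z) →
    ∀ (A : Type) [CStarAlgebra A] (α : A →ₗ[ℂ] ℂ) (ι : ∀ k, C k →⋆ₐ[ℂ] A),
      IsReducedFreeProduct σ α ι →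
    ∀ (B : Type) [CStarAlgebra B] (β : B →ₗ[ℂ] ℂ) (κ₁ : C(unitInterval, ℂ) →⋆ₐ[ℂ] B)
      (κ₂ : A →⋆ₐ[ℂ] B), IsReducedFreeProduct₂ lebesgue α β κ₁ κ₂ →
      Nonempty (A ≃⋆ₐ[ℂ] B)

/-- The general obstruction. -/
theorem obstruction (C : ℕ → Type) [∀ k, CStarAlgebra (C k)] (σ : ∀ k, C k →ₗ[ℂ] ℂ)
    (hσ : ∀ k, IsFTState (σ k)) (hC : ∃ k, ∃ c : C k, ∀ z : ℂ, c ≠ algebraMap ℂ (C k) z)
    (q : ∀ k, C k) (χ : ∀ k, C k → ℂ) (hqs : ∀ k, star (q k) = q k)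
    (hqp : ∀ k, q k * q k = q k) (hqc : ∀ k c, c * q k = χ k c • q k)
    (hsum : ∀ n, ∑ k ∈ range n, (1 - (σ k (q k)).re) < 1)
    (A : Type) [CStarAlgebra A] (α : A →ₗ[ℂ] ℂ) (ι : ∀ k, C k →⋆ₐ[ℂ] A)
    (h : IsReducedFreeProduct σ α ι) :
    Nonempty (A →⋆ₐ[ℂ] ℂ) ∧
    (∀ (B : Type) [CStarAlgebra B] (β : B →ₗ[ℂ] ℂ) (κ₁ : C(unitInterval, ℂ) →⋆ₐ[ℂ] B)
      (κ₂ : A →⋆ₐ[ℂ] B), IsReducedFreeProduct₂ lebesgue α β κ₁ κ₂ →
      IsEmpty (B →⋆ₐ[ℂ] ℂ) ∧ IsEmpty (A ≃⋆ₐ[ℂ] B)) ∧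
    (∀ (Z B : Type) [CStarAlgebra Z] [IsSimpleRing Z] [CStarAlgebra B],
      (∃ x : Z, ∀ z : ℂ, x ≠ algebraMap ℂ Z z) → Nonempty (Z →⋆ₐ[ℂ] B) →
      IsEmpty (A ≃⋆ₐ[ℂ] B)) := by
  obtain ⟨X, -⟩ := exists_character q χ hqs hqp hqc hsum h
  have hstar : ∀ {D : Type} [CStarAlgebra D] (Y : D →ₐ[ℂ] ℂ), Nonempty (D →⋆ₐ[ℂ] ℂ) := by
    intro D _ Y
    haveI : StarHomClass (D →ₐ[ℂ] ℂ) D ℂ := AlgHomClass.instStarHomClass
    exact ⟨{ Y with map_star' := fun a => map_star Y a }⟩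
  have hA : ∃ a : A, ∀ z : ℂ, a ≠ algebraMap ℂ A z := by
    obtain ⟨k, c, hc⟩ := hC
    refine ⟨ι k c, fun z hz => hc z ?_⟩
    have h1 : ι k (c - algebraMap ℂ (C k) z) = 0 := by
      rw [map_sub, hz, sub_eq_zero]
      exact (AlgHomClass.commutes (ι k) z).symm
    have h2 : c - algebraMap ℂ (C k) z = 0 := by
      apply (hσ k).faithful
      rw [← h.comp, map_mul, h1, mul_zero, map_zero]
    exact sub_eq_zero.1 h2
  refine ⟨hstar X, ?_, ?_⟩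
  · intro B _ β κ₁ κ₂ hB
    have hno := no_character h.state hB hA
    exact ⟨⟨fun Y => hno.false Y.toAlgHom⟩, ⟨fun e => hno.false (X.comp
      (e.symm : B →⋆ₐ[ℂ] A).toAlgHom)⟩⟩
  · intro Z B _ _ _ hZ hκ
    obtain ⟨κ⟩ := hκ
    obtain ⟨x, hx⟩ := hZ
    refine ⟨fun e => ?_⟩
    let Y : Z →ₐ[ℂ] ℂ := (X.comp (e.symm : B →⋆ₐ[ℂ] A).toAlgHom).comp κ.toAlgHom
    have hinj : Function.Injective (Y : Z →+* ℂ) := RingHom.injective _
    apply hx (Y x)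
    apply hinj
    change Y x = Y (algebraMap ℂ Z (Y x))
    rw [Y.commutes]
    rfl

/-- **Negative answer to Q1.** -/
theorem result :
    -- (1) for all integers `n k ≥ 2` reduced free products of the `(ℂ ⊕ ℂ, (1/n k, 1 - 1/n k))`
    -- and of `C([0,1])` with them exist
    (∀ n : ℕ → ℕ, (∀ k, 2 ≤ n k) →
      ∃ (A : Type) (_ : CStarAlgebra A) (α : A →ₗ[ℂ] ℂ) (ι : ∀ _ : ℕ, ℂ × ℂ →⋆ₐ[ℂ] A),
        IsReducedFreeProduct (fun k => wt (1 / n k)) α ι ∧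
        ∃ (B : Type) (_ : CStarAlgebra B) (β : B →ₗ[ℂ] ℂ) (κ₁ : C(unitInterval, ℂ) →⋆ₐ[ℂ] B)
          (κ₂ : A →⋆ₐ[ℂ] B), IsReducedFreeProduct₂ lebesgue α β κ₁ κ₂) ∧
    -- (2) the obstruction
    (∀ (C : ℕ → Type) [∀ k, CStarAlgebra (C k)] (σ : ∀ k, C k →ₗ[ℂ] ℂ),
      (∀ k, IsFTState (σ k)) → (∃ k, ∃ c : C k, ∀ z : ℂ, c ≠ algebraMap ℂ (C k) z) →
      ∀ (q : ∀ k, C k) (χ : ∀ k, C k → ℂ), (∀ k, star (q k) = q k) →
      (∀ k, q k * q k = q k) → (∀ k c, c * q k = χ k c • q k) →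
      (∀ n, ∑ k ∈ range n, (1 - (σ k (q k)).re) < 1) →
      ∀ (A : Type) [CStarAlgebra A] (α : A →ₗ[ℂ] ℂ) (ι : ∀ k, C k →⋆ₐ[ℂ] A),
        IsReducedFreeProduct σ α ι →
        Nonempty (A →⋆ₐ[ℂ] ℂ) ∧
        (∀ (B : Type) [CStarAlgebra B] (β : B →ₗ[ℂ] ℂ) (κ₁ : C(unitInterval, ℂ) →⋆ₐ[ℂ] B)
          (κ₂ : A →⋆ₐ[ℂ] B), IsReducedFreeProduct₂ lebesgue α β κ₁ κ₂ →
          IsEmpty (B →⋆ₐ[ℂ] ℂ) ∧ IsEmpty (A ≃⋆ₐ[ℂ] B)) ∧
        (∀ (Z B : Type) [CStarAlgebra Z] [IsSimpleRing Z] [CStarAlgebra B],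
          (∃ x : Z, ∀ z : ℂ, x ≠ algebraMap ℂ Z z) → Nonempty (Z →⋆ₐ[ℂ] B) →
          IsEmpty (A ≃⋆ₐ[ℂ] B))) ∧
    -- (3) so the assertion of Q1 fails
    ¬ AbsorbsInterval := by
  refine ⟨existence, fun C _ σ hσ hC q χ hqs hqp hqc hsum A _ α ι h =>
    obstruction C σ hσ hC q χ hqs hqp hqc hsum A α ι h, ?_⟩
  intro hQ
  obtain ⟨A, iA, α, ι, hA, B, iB, β, κ₁, κ₂, hB⟩ := existence (fun k => 2 ^ (k + 1))
    (fun k => by
      rw [pow_succ]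
      have := Nat.one_le_two_pow (n := k)
      omega)
  have ht : ∀ k : ℕ, (0 : ℝ) < 1 / ((2 ^ (k + 1) : ℕ) : ℝ) ∧ (1 : ℝ) / ((2 ^ (k + 1) : ℕ) : ℝ) < 1 := by
    intro k
    have h1 : (1 : ℝ) < ((2 ^ (k + 1) : ℕ) : ℝ) := by
      push_cast
      exact one_lt_pow₀ (by norm_num) (by omega)
    exact ⟨by positivity, by rw [div_lt_one (by linarith)]; exact h1⟩
  have hσ : ∀ k, IsFTState (wt (1 / ((2 ^ (k + 1) : ℕ) : ℝ))) := fun k =>
    isFTState_wt (ht k).1 (ht k).2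
  have hC : ∀ _ : ℕ, ∃ c : ℂ × ℂ, ∀ z : ℂ, c ≠ algebraMap ℂ (ℂ × ℂ) z := fun _ =>
    ⟨(0, 1), fun z hz => by
      have h1 := congrArg Prod.fst hz
      have h2 := congrArg Prod.snd hz
      simp at h1 h2
      rw [← h1] at h2
      simp at h2⟩
  have key := obstruction (fun _ => ℂ × ℂ) _ hσ ⟨0, hC 0⟩ (fun _ => (0, 1)) (fun _ c => c.2)
    (fun _ => by ext <;> simp) (fun _ => by ext <;> simp) (fun _ c => by ext <;> simp)
    (fun n => by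
      have h1 : ∀ k : ℕ, 1 - (wt (1 / ((2 ^ (k + 1) : ℕ) : ℝ)) ((0 : ℂ), (1 : ℂ))).re
          = (1 / 2 : ℝ) * (1 / 2) ^ k := by
        intro k
        rw [wt_apply, mul_zero, mul_one, zero_add, Complex.sub_re, Complex.one_re,
          Complex.ofReal_re]
        push_cast
        rw [pow_succ, one_div_pow]
        field_simp
        ring
      rw [Finset.sum_congr rfl fun k _ => h1 k, ← Finset.mul_sum, geom_sum_eq (by norm_num)]
      have : (0 : ℝ) < (1 / 2) ^ n := by positivity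
      norm_num
      linarith)
    A α ι hA
  obtain ⟨e⟩ := hQ (fun _ => ℂ × ℂ) _ hσ hC A α ι hA B β κ₁ κ₂ hB
  exact (key.2.1 B β κ₁ κ₂ hB).2.false e

end Pool.Agent.Results.MP_88a42c_an.NoAbsorption
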